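import Pool.Agent.Y160.FT.Stmts

/-! Elementary properties of the family `f = g(x) + h(x, t) ^ q`. -/

set_option autoImplicit false

open Polynomial

namespace Pool.Agent.Y721.FT

open Pool.Agent.Y160.FT
open Pool.Agent.Y160.SE (SmoothC)

/-! ### the polynomials `EE` -/

section EE

variable {k S S' : Type} [CommRing k] [CommRing S] [CommRing S']

theorem EE_map (ℓ : ℕ) (φ : k[X] →+* S) (θ : S →+* S') (l : List (k[X] × k)) (T : S) :
    θ (EE ℓ φ l T) = EE ℓ (θ.comp φ) l (θ T) := by
  induction l with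
  | nil => rfl
  | cons p l ih =>
    obtain ⟨b, a⟩ := p
    simp only [EE]
    rw [map_add, map_mul, map_pow, ih]
    rfl

theorem EE_append (ℓ : ℕ) (φ : k[X] →+* S) (l₁ l₂ : List (k[X] × k)) (T : S) :
    EE ℓ φ (l₁ ++ l₂) T = EE ℓ φ l₁ (EE ℓ φ l₂ T) := by
  induction l₁ with
  | nil => rfl
  | cons p l ih =>
    obtain ⟨b, a⟩ := p
    simp only [EE, List.cons_append]
    rw [ih]

theorem EE_dvd (ℓ : ℕ) (φ : k[X] →+* S) (l : List (k[X] × k)) (T T' : S) :
    T - T' ∣ EE ℓ φ l T - EE ℓ φ l T' := by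
  induction l with
  | nil => exact dvd_rfl
  | cons p l ih =>
    obtain ⟨b, a⟩ := p
    simp only [EE]
    have h1 : φ b + φ (C a) * EE ℓ φ l T ^ ℓ - (φ b + φ (C a) * EE ℓ φ l T' ^ ℓ) =
        φ (C a) * (EE ℓ φ l T ^ ℓ - EE ℓ φ l T' ^ ℓ) := by ring
    rw [h1]
    exact Dvd.dvd.mul_left (ih.trans (sub_dvd_pow_sub_pow _ _ _)) _

end EE

/-- the degree in the last variable -/
theorem natDegree_EE {k K : Type} [Field k] [Field K] (ℓ : ℕ) (hℓ : 0 < ℓ) (β : k[X] →+* K)
    (l : List (k[X] × k)) (hne : ∀ p ∈ l, p.2 ≠ 0) :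
    (EE ℓ (C.comp β) l (X : K[X])).natDegree = ℓ ^ l.length := by
  induction l with
  | nil => simp [EE]
  | cons p l ih =>
    obtain ⟨b, a⟩ := p
    simp only [EE, List.length_cons]
    have ih' := ih (fun p hp => hne p (List.mem_cons_of_mem _ hp))
    have ha : a ≠ 0 := hne (b, a) List.mem_cons_self
    have hβa : β (C a) ≠ 0 := by
      intro h
      have h1 : β (C a) * β (C a⁻¹) = 1 := by
        rw [← map_mul, ← C_mul, mul_inv_cancel₀ ha, C_1, map_one]
      rw [h, zero_mul] at h1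
      exact zero_ne_one h1
    have h1 : ((C.comp β) (C a) * (EE ℓ (C.comp β) l (X : K[X])) ^ ℓ).natDegree =
        ℓ ^ (l.length + 1) := by
      rw [RingHom.comp_apply, natDegree_C_mul hβa, natDegree_pow, ih', pow_succ, mul_comm]
    rw [RingHom.comp_apply, natDegree_C_add, ← RingHom.comp_apply]
    exact h1

/-! ### degrees in `x` -/

section deg

variable {k : Type} [Field k]

theorem mapC_natDegree (b : k[X]) : (mapRingHom (C : k →+* k[X]) b).natDegree = b.natDegree := by
  rw [coe_mapRingHom, natDegree_map_eq_of_injective C_injective]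

theorem EE_degx (ℓ q n : ℕ) (hn : 0 < n) (l : List (k[X] × k))
    (hdeg : ∀ l₁ b a l₂, l = l₁ ++ (b, a) :: l₂ → q * ℓ ^ l₁.length * b.natDegree < n) :
    q * (EE ℓ (mapRingHom C) l (C X) : k[X][X]).natDegree < n := by
  induction l generalizing q with
  | nil => simp [EE, hn]
  | cons p l ih =>
    obtain ⟨b, a⟩ := p
    have h1 := hdeg [] b a l rfl
    simp only [List.length_nil, pow_zero, mul_one] at h1
    have h2 := ih (q * ℓ) (fun l₁ b' a' l₂ h => by
      have := hdeg ((b, a) :: l₁) b' a' l₂ (by rw [h]; rfl)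
      rw [List.length_cons, pow_succ'] at this
      rw [mul_assoc q ℓ]
      exact this)
    simp only [EE]
    have h3 := natDegree_add_le (mapRingHom C b) (mapRingHom C (C a) *
      (EE ℓ (mapRingHom C) l (C X) : k[X][X]) ^ ℓ)
    rw [mapC_natDegree] at h3
    have h4 : (mapRingHom C (C a) * (EE ℓ (mapRingHom C) l (C X) : k[X][X]) ^ ℓ).natDegree ≤
        ℓ * (EE ℓ (mapRingHom C) l (C X) : k[X][X]).natDegree := by
      refine natDegree_mul_le.trans ?_
      rw [mapC_natDegree, natDegree_C, zero_add]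
      exact natDegree_pow_le
    rcases le_max_iff.1 h3 with h5 | h5
    · exact lt_of_le_of_lt (Nat.mul_le_mul_left q h5) h1
    · refine lt_of_le_of_lt (Nat.mul_le_mul_left q (h5.trans h4)) ?_
      rw [← mul_assoc]
      exact h2

end deg

/-! ### the derivation with respect to `t` -/

section Dt

variable {k : Type} [Field k]

/-- the derivative of the coefficients -/
noncomputable def Dt (p : k[X][X]) : k[X][X] := p.sum fun i a => C (derivative a) * X ^ i

theorem coeff_Dt (p : k[X][X]) (n : ℕ) : (Dt p).coeff n = derivative (p.coeff n) := by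
  unfold Dt
  rw [sum_def, finsetSum_coeff]
  simp only [coeff_C_mul, coeff_X_pow]
  rw [Finset.sum_eq_single n]
  · simp
  · intro b _ hb
    rw [if_neg (Ne.symm hb), mul_zero]
  · intro h
    rw [notMem_support_iff.1 h]
    simp

theorem Dt_add (p r : k[X][X]) : Dt (p + r) = Dt p + Dt r := by
  ext1 n
  rw [coeff_Dt, coeff_add, coeff_add, coeff_Dt, coeff_Dt, derivative_add]

theorem Dt_mul (p r : k[X][X]) : Dt (p * r) = Dt p * r + p * Dt r := by
  ext1 n
  rw [coeff_Dt, coeff_mul, coeff_add, coeff_mul, coeff_mul, derivative_sum,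
    ← Finset.sum_add_distrib]
  refine Finset.sum_congr rfl fun x _ => ?_
  rw [coeff_Dt, coeff_Dt, derivative_mul]

theorem Dt_mapC (b : k[X]) : Dt (mapRingHom C b) = 0 := by
  ext1 n
  rw [coeff_Dt, coe_mapRingHom, coeff_map, derivative_C, coeff_zero]

theorem Dt_one : Dt (1 : k[X][X]) = 0 := by
  have := Dt_mapC (1 : k[X])
  rwa [map_one] at this

theorem Dt_pow (p : k[X][X]) (n : ℕ) : Dt (p ^ (n + 1)) = ((n + 1 : ℕ) : k[X][X]) * p ^ n * Dt p := by
  induction n with
  | zero => simp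
  | succ n ih =>
    rw [pow_succ, Dt_mul, ih]
    push_cast
    ring

theorem Dt_X : Dt (C X : k[X][X]) = 1 := by
  ext1 n
  rw [coeff_Dt, coeff_C]
  by_cases h : n = 0
  · rw [if_pos h, h, derivative_X, coeff_one_zero]
  · rw [if_neg h, derivative_zero, coeff_one, if_neg h]

end Dt

section smooth

variable {k : Type} [Field k]

theorem isUnit_nat {ℓ : ℕ} (h : (ℓ : k) ≠ 0) : IsUnit ((ℓ : ℕ) : k[X][X]) := by
  have : ((ℓ : ℕ) : k[X][X]) = C (C (ℓ : k)) := by simp
  rw [this, isUnit_C, isUnit_C]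
  exact h.isUnit

theorem isUnit_mapC {a : k} (h : a ≠ 0) : IsUnit (mapRingHom (C : k →+* k[X]) (C a)) := by
  rw [coe_mapRingHom, map_C, isUnit_C, isUnit_C]
  exact h.isUnit

/-- the factors of the derivative of `h` -/
theorem mem_of_Dt (ℓ : ℕ) (hℓ : 2 ≤ ℓ) (hℓk : (ℓ : k) ≠ 0) (P : Ideal k[X][X]) (hP : P.IsPrime)
    (l : List (k[X] × k)) (hne : ∀ p ∈ l, p.2 ≠ 0)
    (h : Dt (EE ℓ (mapRingHom C) l (C X) : k[X][X]) ∈ P) :
    ∃ l₁ l₂, l = l₁ ++ l₂ ∧ (EE ℓ (mapRingHom C) l₂ (C X) : k[X][X]) ∈ P := by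
  induction l with
  | nil =>
    exfalso
    simp only [EE] at h
    rw [Dt_X] at h
    exact hP.ne_top ((Ideal.eq_top_iff_one P).2 h)
  | cons p l ih =>
    obtain ⟨b, a⟩ := p
    simp only [EE] at h
    have ha : a ≠ 0 := hne (b, a) List.mem_cons_self
    obtain ⟨m, rfl⟩ : ∃ m, ℓ = m + 1 := ⟨ℓ - 1, by omega⟩
    rw [Dt_add, Dt_mapC, zero_add, Dt_mul, Dt_mapC, zero_mul, zero_add, Dt_pow] at h
    have h1 : EE (m + 1) (mapRingHom C) l (C X) ^ m *
        Dt (EE (m + 1) (mapRingHom C) l (C X) : k[X][X]) ∈ P := by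
      have h2 := (Ideal.unit_mul_mem_iff_mem P (isUnit_mapC ha)).1 h
      rw [mul_assoc] at h2
      exact (Ideal.unit_mul_mem_iff_mem P (isUnit_nat hℓk)).1 h2
    rcases hP.mem_or_mem h1 with h2 | h2
    · exact ⟨[(b, a)], l, rfl, hP.mem_of_pow_mem m h2⟩
    · obtain ⟨l₁, l₂, h3, h4⟩ := ih (fun p hp => hne p (List.mem_cons_of_mem _ hp)) h2
      exact ⟨(b, a) :: l₁, l₂, by rw [h3]; rfl, h4⟩

/-- modulo the square of a factor, `f` is a separable polynomial in `x` -/
theorem ff_mod (ℓ q s : ℕ) (hℓ : ℓ.Prime) (hq : q = ℓ ^ (s + 1)) (g : k[X])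
    (l : List (k[X] × k)) (hC : Cond ℓ q g l) (l₁ l₂ : List (k[X] × k)) (hl : l = l₁ ++ l₂) :
    ∃ (G : k[X]) (W : k[X][X]), G.Separable ∧
      ff ℓ q g l = mapRingHom C G + (EE ℓ (mapRingHom C) l₂ (C X)) ^ 2 * W := by
  have hℓ2 := hℓ.two_le
  have hq2 : 2 ≤ q := by
    rw [hq, pow_succ]
    have : 1 ≤ ℓ ^ s := Nat.one_le_pow _ _ (by omega)
    nlinarith
  rcases List.eq_nil_or_concat l₁ with h0 | ⟨l₁', p, h0⟩
  · subst h0
    rw [List.nil_append] at hl
    refine ⟨g, (EE ℓ (mapRingHom C) l₂ (C X)) ^ (q - 2), hC.sep, ?_⟩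
    rw [← pow_add, Nat.add_sub_cancel' hq2, hl]
    rfl
  · obtain ⟨b, a⟩ := p
    rw [List.concat_eq_append] at h0
    have hl' : l = l₁' ++ (b, a) :: l₂ := by rw [hl, h0]; simp
    set H : k[X][X] := EE ℓ (mapRingHom C) l₂ (C X) with hH
    have e1 : EE ℓ (mapRingHom C) l (C X) =
        EE ℓ (mapRingHom C) l₁' (mapRingHom C b + mapRingHom C (C a) * H ^ ℓ) := by
      rw [hl', EE_append]
      rfl
    have e2 : EE ℓ (mapRingHom C) l₁' (mapRingHom C b) =
        mapRingHom (C : k →+* k[X]) (EE ℓ (RingHom.id k[X]) l₁' b) := by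
      rw [EE_map, RingHom.comp_id]
    have h1 : H ^ 2 ∣ EE ℓ (mapRingHom C) l (C X) - EE ℓ (mapRingHom C) l₁' (mapRingHom C b) := by
      rw [e1]
      refine Dvd.dvd.trans ?_ (EE_dvd ℓ _ l₁' _ _)
      rw [add_sub_cancel_left]
      exact Dvd.dvd.mul_left (pow_dvd_pow _ hℓ2) _
    have h2 : H ^ 2 ∣ EE ℓ (mapRingHom C) l (C X) ^ q -
        EE ℓ (mapRingHom C) l₁' (mapRingHom C b) ^ q := h1.trans (sub_dvd_pow_sub_pow _ _ _)
    obtain ⟨W, hW⟩ := h2
    refine ⟨g + (EE ℓ (RingHom.id k[X]) l₁' b) ^ q, W, hC.gsep l₁' b a l₂ hl', ?_⟩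
    rw [← hW, map_add, map_pow, ← e2]
    unfold ff
    rw [coe_mapRingHom]
    ring

theorem smooth_ff (ℓ q s : ℕ) (hℓ : ℓ.Prime) (hq : q = ℓ ^ (s + 1)) (hℓk : (ℓ : k) ≠ 0) (g : k[X])
    (l : List (k[X] × k)) (hC : Cond ℓ q g l) (hne : ∀ p ∈ l, p.2 ≠ 0) :
    SmoothC (ff ℓ q g l) := by
  unfold SmoothC
  by_contra hcon
  obtain ⟨P, hPm, hP⟩ := Ideal.exists_le_maximal _ hcon
  have hPp := hPm.isPrime
  have hf : ff ℓ q g l ∈ P := hP (Ideal.subset_span (by simp))
  have hfx : derivative (ff ℓ q g l) ∈ P := hP (Ideal.subset_span (by simp))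
  have hft : Dt (ff ℓ q g l) ∈ P := hP (Ideal.subset_span (by
    right; right; exact rfl))
  have hqk : (q : k) ≠ 0 := by
    rw [hq]
    push_cast
    exact pow_ne_zero _ hℓk
  have hq1 : 0 < q := by
    rw [hq]
    exact pow_pos hℓ.pos _
  -- some factor is in `P`
  obtain ⟨l₁, l₂, hl, hmem⟩ : ∃ l₁ l₂, l = l₁ ++ l₂ ∧
      (EE ℓ (mapRingHom C) l₂ (C X) : k[X][X]) ∈ P := by
    obtain ⟨m, hm⟩ : ∃ m, q = m + 1 := ⟨q - 1, by omega⟩
    have h1 : Dt (ff ℓ q g l) = ((q : ℕ) : k[X][X]) * ((EE ℓ (mapRingHom C) l (C X)) ^ m *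
        Dt (EE ℓ (mapRingHom C) l (C X))) := by
      unfold ff
      rw [Dt_add, ← coe_mapRingHom, Dt_mapC, zero_add, hm, Dt_pow]
      ring
    rw [h1] at hft
    rcases hPp.mem_or_mem ((Ideal.unit_mul_mem_iff_mem P (isUnit_nat hqk)).1 hft) with h2 | h2
    · exact ⟨[], l, rfl, hPp.mem_of_pow_mem m h2⟩
    · exact mem_of_Dt ℓ hℓ.two_le hℓk P hPp l hne h2
  obtain ⟨G, W, hG, hfG⟩ := ff_mod ℓ q s hℓ hq g l hC l₁ l₂ hl
  set H : k[X][X] := EE ℓ (mapRingHom C) l₂ (C X) with hH
  have h1 : mapRingHom C G ∈ P := by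
    have : mapRingHom C G = ff ℓ q g l - H * (H * W) := by rw [hfG]; ring
    rw [this]
    exact P.sub_mem hf (P.mul_mem_right _ hmem)
  have h2 : mapRingHom C (derivative G) ∈ P := by
    have e1 : derivative (mapRingHom (C : k →+* k[X]) G) = mapRingHom C (derivative G) := by
      rw [coe_mapRingHom, derivative_map]
    have e2 : mapRingHom C (derivative G) = derivative (ff ℓ q g l) -
        H * (2 * derivative H * W + H * derivative W) := by
      rw [hfG, derivative_add, e1, derivative_mul, derivative_pow]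
      simp only [Nat.cast_ofNat, Nat.add_one_sub_one, pow_one, map_ofNat]
      ring
    rw [e2]
    exact P.sub_mem hfx (P.mul_mem_right _ hmem)
  obtain ⟨A, B, hAB⟩ := hG
  apply hPm.ne_top
  rw [Ideal.eq_top_iff_one]
  have h3 : (1 : k[X][X]) = mapRingHom C A * mapRingHom C G +
      mapRingHom C B * mapRingHom C (derivative G) := by
    rw [← map_mul, ← map_mul, ← map_add, hAB, map_one]
  rw [h3]
  exact P.add_mem (P.mul_mem_left _ h1) (P.mul_mem_left _ h2)

end smooth

/-! ### weights -/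

section wt

variable {k : Type} [Field k]

/-- the weight of `p` is at most `w` (`x` has weight `M` and `t` has weight `n`) -/
def Wt (n M : ℕ) (p : k[X][X]) (w : ℕ) : Prop :=
  ∀ j, p.coeff j ≠ 0 → n * (p.coeff j).natDegree + M * j ≤ w

theorem Wt.mono {n M : ℕ} {p : k[X][X]} {w w' : ℕ} (h : Wt n M p w) (hw : w ≤ w') :
    Wt n M p w' := fun j hj => (h j hj).trans hw

theorem Wt.add {n M : ℕ} {p r : k[X][X]} {w : ℕ} (h : Wt n M p w) (h' : Wt n M r w) :
    Wt n M (p + r) w := by
  intro j hj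
  rw [coeff_add] at hj ⊢
  by_cases h1 : p.coeff j = 0
  · rw [h1, zero_add] at hj ⊢
    exact h' j hj
  · by_cases h2 : r.coeff j = 0
    · rw [h2, add_zero] at hj ⊢
      exact h j hj
    · have h3 := h j h1
      have h4 := h' j h2
      have h5 := natDegree_add_le (p.coeff j) (r.coeff j)
      rcases le_max_iff.1 h5 with h6 | h6
      · have := Nat.mul_le_mul_left n h6
        omega
      · have := Nat.mul_le_mul_left n h6
        omega

theorem Wt.mul {n M : ℕ} {p r : k[X][X]} {w w' : ℕ} (h : Wt n M p w) (h' : Wt n M r w') :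
    Wt n M (p * r) (w + w') := by
  intro j hj
  rw [coeff_mul] at hj ⊢
  have key : n * (∑ x ∈ Finset.HasAntidiagonal.antidiagonal j, p.coeff x.1 * r.coeff x.2).natDegree ≤
      w + w' - M * j ∧ M * j ≤ w + w' := by
    have hterm : ∀ x ∈ Finset.HasAntidiagonal.antidiagonal j, p.coeff x.1 * r.coeff x.2 ≠ 0 →
        n * (p.coeff x.1 * r.coeff x.2).natDegree + M * j ≤ w + w' := by
      intro x hx hne
      have h1 := h x.1 (left_ne_zero_of_mul hne)
      have h2 := h' x.2 (right_ne_zero_of_mul hne)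
      have h3 := Nat.mul_le_mul_left n (natDegree_mul_le (p := p.coeff x.1) (q := r.coeff x.2))
      rw [Finset.HasAntidiagonal.mem_antidiagonal] at hx
      have h4 : M * j = M * x.1 + M * x.2 := by rw [← hx]; ring
      have h5 : n * ((p.coeff x.1).natDegree + (r.coeff x.2).natDegree) =
        n * (p.coeff x.1).natDegree + n * (r.coeff x.2).natDegree := by ring
      omega
    obtain ⟨x0, hx0, hne0⟩ := Finset.exists_ne_zero_of_sum_ne_zero hj
    have hMj : M * j ≤ w + w' := by
      have := hterm x0 hx0 hne0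
      omega
    refine ⟨?_, hMj⟩
    by_cases hn : n = 0
    · rw [hn, zero_mul]; exact Nat.zero_le _
    · have hle : (∑ x ∈ Finset.HasAntidiagonal.antidiagonal j, p.coeff x.1 * r.coeff x.2).natDegree ≤
          (w + w' - M * j) / n := by
        apply natDegree_sum_le_of_forall_le
        intro x hx
        rw [Nat.le_div_iff_mul_le (Nat.pos_of_ne_zero hn)]
        by_cases hz : p.coeff x.1 * r.coeff x.2 = 0
        · rw [hz, natDegree_zero, zero_mul]; exact Nat.zero_le _
        · have := hterm x hx hz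
          rw [mul_comm]
          omega
      exact (Nat.mul_le_mul_left n hle).trans (Nat.mul_div_le _ _)
  omega

theorem Wt.one (n M : ℕ) : Wt n M (1 : k[X][X]) 0 := by
  intro j hj
  rw [coeff_one] at hj ⊢
  by_cases h : j = 0
  · rw [if_pos h, natDegree_one, h]; simp
  · rw [if_neg h] at hj; exact absurd rfl hj

theorem Wt.pow {n M : ℕ} {p : k[X][X]} {w : ℕ} (h : Wt n M p w) (m : ℕ) :
    Wt n M (p ^ m) (m * w) := by
  induction m with
  | zero => rw [pow_zero, zero_mul]; exact Wt.one n M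
  | succ m ih =>
    rw [pow_succ]
    refine (ih.mul h).mono ?_
    rw [Nat.succ_mul]

theorem Wt.mapC {n M : ℕ} (b : k[X]) : Wt n M (mapRingHom C b) (M * b.natDegree) := by
  intro j hj
  rw [coe_mapRingHom, coeff_map] at hj ⊢
  rw [natDegree_C, mul_zero, zero_add]
  have h1 : b.coeff j ≠ 0 := by
    intro h; rw [h, C_0] at hj; exact hj rfl
  exact Nat.mul_le_mul_left M (le_natDegree_of_ne_zero h1)

theorem Wt.X (n M : ℕ) : Wt n M (C X : k[X][X]) n := by
  intro j hj
  rw [coeff_C] at hj ⊢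
  by_cases h : j = 0
  · rw [if_pos h, natDegree_X, h]; simp
  · rw [if_neg h] at hj; exact absurd rfl hj

theorem wt_EE (ℓ q n : ℕ) (l : List (k[X] × k))
    (hdeg : ∀ l₁ b a l₂, l = l₁ ++ (b, a) :: l₂ → q * ℓ ^ l₁.length * b.natDegree < n)
    (l₂ : List (k[X] × k)) : ∀ l₁, l = l₁ ++ l₂ →
      Wt n (q * ℓ ^ l.length) (EE ℓ (mapRingHom C) l₂ (C X) : k[X][X]) (n * ℓ ^ l₂.length) := by
  induction l₂ with
  | nil =>
    intro l₁ _
    simp only [EE, List.length_nil, pow_zero, mul_one]
    exact Wt.X _ _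
  | cons p l₂ ih =>
    intro l₁ hl
    obtain ⟨b, a⟩ := p
    simp only [EE]
    have h1 := hdeg l₁ b a l₂ hl
    have h2 := ih (l₁ ++ [(b, a)]) (by rw [hl]; simp)
    have hlen : l.length = l₁.length + (l₂.length + 1) := by rw [hl]; simp
    apply Wt.add
    · refine (Wt.mapC b).mono ?_
      calc q * ℓ ^ l.length * b.natDegree
          = (q * ℓ ^ l₁.length * b.natDegree) * ℓ ^ (l₂.length + 1) := by
            rw [hlen, pow_add]; ring
        _ ≤ n * ℓ ^ (l₂.length + 1) := Nat.mul_le_mul_right _ h1.le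
    · refine ((Wt.mapC (C a)).mul (h2.pow ℓ)).mono ?_
      rw [natDegree_C, mul_zero, zero_add, List.length_cons, pow_succ]
      apply le_of_eq
      ring

end wt

theorem stFam (hIrr : StIrr) : StFam := by
  intro ℓ q s k _ g l hℓ hq hℓk hC
  have hq1 : 0 < q := by
    rw [hq]
    exact pow_pos hℓ.pos _
  have hn : 0 < g.natDegree := by
    rcases Nat.eq_zero_or_pos g.natDegree with h | h
    · exfalso
      have := hC.cop
      rw [h, Nat.coprime_zero_right] at this
      exact hℓ.one_lt.ne' this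
    · exact h
  have hne : ∀ p ∈ l, p.2 ≠ 0 := by
    intro p hp
    obtain ⟨l₁, l₂, h⟩ := List.append_of_mem hp
    exact hC.ne l₁ p.1 p.2 l₂ h
  have hdx := EE_degx ℓ q g.natDegree hn l hC.deg
  set h : k[X][X] := EE ℓ (mapRingHom C) l (C X) with hh
  have hdeg : (h ^ q).degree < (g.map (C : k →+* k[X])).degree := by
    have h1 : (g.map (C : k →+* k[X])).degree = g.natDegree := by
      rw [degree_map_eq_of_injective C_injective, degree_eq_natDegree hC.monic.ne_zero]
    rw [h1]
    refine lt_of_le_of_lt degree_le_natDegree ?_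
    have h2 : (h ^ q).natDegree ≤ q * h.natDegree := natDegree_pow_le
    exact_mod_cast lt_of_le_of_lt h2 hdx
  have hfm : (ff ℓ q g l).Monic := by
    unfold ff
    exact Monic.add_of_left (hC.monic.map _) hdeg
  have hfn : (ff ℓ q g l).natDegree = g.natDegree := by
    unfold ff
    rw [natDegree_add_eq_left_of_degree_lt hdeg, natDegree_map_eq_of_injective C_injective]
  set M := q * ℓ ^ l.length with hM
  have hM0 : 0 < M := Nat.mul_pos hq1 (pow_pos hℓ.pos _)
  have hMc : g.natDegree.Coprime M := by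
    rw [hM, hq, ← pow_add]
    exact (Nat.Coprime.pow_left _ hC.cop).symm
  -- the weights
  have hwt : Wt g.natDegree M (ff ℓ q g l) (g.natDegree * M) := by
    unfold ff
    apply Wt.add
    · refine (Wt.mapC g).mono ?_
      rw [mul_comm]
    · refine ((wt_EE ℓ q g.natDegree l hC.deg l [] rfl).pow q).mono ?_
      apply le_of_eq
      rw [hM]; ring
  have hc0 : ((ff ℓ q g l).coeff 0).natDegree = M := by
    have h1 : (ff ℓ q g l).coeff 0 = C (g.coeff 0) +
        (EE ℓ ((C : k →+* k[X]).comp (evalRingHom 0)) l X) ^ q := by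
      unfold ff
      rw [coeff_add, coeff_map]
      congr 1
      have e1 : ∀ p : k[X][X], p.coeff 0 = evalRingHom 0 p := fun p => by
        rw [coe_evalRingHom, coeff_zero_eq_eval_zero]
      rw [e1, map_pow, EE_map]
      congr 2
      · apply Polynomial.ringHom_ext
        · intro a
          simp
        · simp
      · simp
    rw [h1, natDegree_C_add, natDegree_pow, natDegree_EE ℓ hℓ.pos _ l hne]
  have hcoef : ∀ j ≤ g.natDegree, g.natDegree * ((ff ℓ q g l).coeff j).natDegree ≤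
      M * (g.natDegree - j) := by
    intro j hj
    by_cases hz : (ff ℓ q g l).coeff j = 0
    · rw [hz, natDegree_zero, mul_zero]; exact Nat.zero_le _
    · have h1 := hwt j hz
      rw [Nat.mul_sub]
      have h2 : M * g.natDegree = g.natDegree * M := mul_comm _ _
      omega
  have hirr : ∀ (F : Type) [Field F] [Algebra k[X] F] [IsFractionRing k[X] F],
      Irreducible ((ff ℓ q g l).map (algebraMap k[X] F)) := by
    intro F _ _ _
    exact hIrr k F (ff ℓ q g l) M hfm (by rw [hfn]; exact hMc) hM0 hc0 (by rw [hfn]; exact hcoef)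
  refine ⟨hfm, hfn, smooth_ff ℓ q s hℓ hq hℓk g l hC hne, ?_, ?_⟩
  · intro F _ _ _
    refine ⟨hirr F, ?_⟩
    rw [separable_iff_derivative_ne_zero (hirr F), derivative_map]
    have hinj : Function.Injective (algebraMap k[X] F) := IsFractionRing.injective _ _
    rw [Ne, Polynomial.map_eq_zero_iff hinj]
    intro hd
    -- the derivative of `g` is not zero
    have hg' : derivative g ≠ 0 := by
      intro h0
      have hs := hC.sep
      unfold Separable at hs
      rw [h0, isCoprime_zero_right] at hs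
      have := natDegree_eq_zero_of_isUnit hs
      omega
    obtain ⟨m, hm⟩ : ∃ m, q = m + 1 := ⟨q - 1, by omega⟩
    have hm1 : 1 ≤ m := by
      have h2 : 2 ≤ q := by
        rw [hq, pow_succ]
        have h3 := hℓ.two_le
        have : 1 ≤ ℓ ^ s := Nat.one_le_pow _ _ (by omega)
        nlinarith
      omega
    have h1 : derivative (ff ℓ q g l) = mapRingHom C (derivative g) +
        h * (C (q : k[X]) * h ^ (m - 1) * derivative h) := by
      unfold ff
      rw [derivative_add, derivative_map, ← hh, derivative_pow, hm, Nat.add_sub_cancel,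
        coe_mapRingHom]
      obtain ⟨m', rfl⟩ : ∃ m', m = m' + 1 := ⟨m - 1, by omega⟩
      rw [Nat.add_sub_cancel]
      ring
    rw [h1] at hd
    have h2 : h ∣ mapRingHom C (derivative g) := by
      refine ⟨-(C (q : k[X]) * h ^ (m - 1) * derivative h), ?_⟩
      linear_combination hd
    -- specialise
    let K := FractionRing k[X]
    let κ : k →+* K := (algebraMap k[X] K).comp C
    let Θ : k[X][X] →+* K[X] := eval₂RingHom (mapRingHom κ) (C (algebraMap k[X] K X))
    have hΘC : Θ.comp (mapRingHom C) = C.comp (algebraMap k[X] K) := by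
      apply Polynomial.ringHom_ext
      · intro a
        simp [Θ, κ]
      · simp [Θ]
    have h3 := map_dvd Θ h2
    rw [hh, EE_map, hΘC] at h3
    have h4 : Θ (C X) = X := by simp [Θ]
    rw [h4] at h3
    have h5 : Θ (mapRingHom C (derivative g)) = C (algebraMap k[X] K (derivative g)) :=
      DFunLike.congr_fun hΘC (derivative g)
    rw [h5] at h3
    have hne0 : algebraMap k[X] K (derivative g) ≠ 0 := by
      intro h0
      exact hg' ((map_eq_zero_iff _ (IsFractionRing.injective k[X] K)).1 h0)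
    have h6 := natDegree_le_of_dvd h3 (by rwa [Ne, C_eq_zero])
    rw [natDegree_EE ℓ hℓ.pos _ l hne, natDegree_C] at h6
    have := pow_pos hℓ.pos l.length
    omega
  · intro k' F _ _ _ _ _
    have hinj : Function.Injective (mapRingHom (algebraMap k k')) :=
      map_injective _ (algebraMap k k').injective
    have hn' : ((ff ℓ q g l).map (mapRingHom (algebraMap k k'))).natDegree = g.natDegree := by
      rw [natDegree_map_eq_of_injective hinj, hfn]
    have hco : ∀ j, (((ff ℓ q g l).map (mapRingHom (algebraMap k k'))).coeff j).natDegree =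
        ((ff ℓ q g l).coeff j).natDegree := by
      intro j
      rw [coeff_map, coe_mapRingHom, natDegree_map]
    exact hIrr k' F _ M (hfm.map _) (by rw [hn']; exact hMc) hM0 (by rw [hco, hc0])
      (by rw [hn']; intro j hj; rw [hco]; exact hcoef j hj)

end Pool.Agent.Y721.FT
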